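import Pool.Agent.Helper16.MD.Stmts
import Pool.Agent.Helper17.SO.Stmts
import Pool.Agent.Helper41.SO.BTP

set_option autoImplicit false

open Finset

namespace Pool.Agent.Helper16.MD

open Pool.Agent.Helper17.SO (ST_SAP ST_MER PP LL btp_mem btp_tot btp_sum)

theorem st_BTD (hS : ST_SAP) (hM : ST_MER) : ST_BTD := by
  obtain ⟨b, CS, hb, hCS0, hCS⟩ := hS
  obtain ⟨CM, hCM0, hCM⟩ := hM
  obtain ⟨E, hE⟩ : ∃ E, E = CS * Real.exp (CM + 1) := ⟨_, rfl⟩
  have hE0 : 0 < E := by rw [hE]; exact mul_pos hCS0 (Real.exp_pos _)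
  have hl2 : 0 < Real.log 2 := Real.log_pos (by norm_num)
  have hb0 : (1 : ℝ) ≤ b := by exact_mod_cast hb
  refine ⟨(2 : ℝ) ^ (2 * b) * (2 * b) + 2 * E * (4 * b) / Real.log 2, by positivity, ?_⟩
  intro i d r hi hd hdi hrd
  have hφ : 0 < (d.totient : ℝ) := by exact_mod_cast Nat.totient_pos.2 hd
  have hd' : (0 : ℝ) < d := by exact_mod_cast hd
  have hi0 : (0 : ℝ) < i := by exact_mod_cast hi
  have hC1 : (0 : ℝ) ≤ (2 : ℝ) ^ (2 * b) * (2 * b) := by positivity
  have hC2 : (0 : ℝ) ≤ 2 * E * (4 * b) / Real.log 2 := by positivity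
  have h2i : (0 : ℝ) < (2 : ℝ) ^ i := by positivity
  obtain ⟨S, hSdef⟩ : ∃ S : Finset ℕ,
      S = (Ioc (2 ^ i) (2 ^ (i + 1))).filter fun p => p.Prime ∧ p % d = r % d := ⟨_, rfl⟩
  rw [← hSdef]
  rcases lt_or_ge i (2 * b) with hsmall | hbig
  · -- bounded `i`
    have h1 : (S.card : ℝ) ≤ 2 ^ i := by
      have h : S.card ≤ 2 ^ i := by
        rw [hSdef]
        refine (card_filter_le _ _).trans ?_
        rw [Nat.card_Ioc, pow_succ]
        omega
      exact_mod_cast h
    rw [le_div_iff₀ (by positivity)]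
    have h2 : (d.totient : ℝ) ≤ (2 : ℝ) ^ (2 * b) := by
      have h3 : d.totient ≤ 2 ^ (2 * b) := by
        calc d.totient ≤ d := Nat.totient_le d
          _ ≤ d ^ 2 := Nat.le_self_pow (by norm_num) d
          _ ≤ 2 ^ i := hdi
          _ ≤ 2 ^ (2 * b) := Nat.pow_le_pow_right (by norm_num) hsmall.le
      exact_mod_cast h3
    have h3 : (i : ℝ) ≤ 2 * b := by exact_mod_cast hsmall.le
    calc (S.card : ℝ) * ((d.totient : ℝ) * i) ≤ 2 ^ i * ((2 : ℝ) ^ (2 * b) * (2 * b)) := by
          refine mul_le_mul h1 (mul_le_mul h2 h3 hi0.le (by positivity)) (by positivity) h2i.le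
      _ ≤ ((2 : ℝ) ^ (2 * b) * (2 * b) + 2 * E * (4 * b) / Real.log 2) * 2 ^ i := by
          nlinarith
  · -- the sieve
    obtain ⟨e, he⟩ : ∃ e, e = i / (2 * b) := ⟨_, rfl⟩
    have hb2 : 0 < 2 * b := by omega
    have he1 : 1 ≤ e := by
      rw [he]
      exact (Nat.one_le_div_iff hb2).2 hbig
    have he2 : 2 * b * e ≤ i := by
      rw [he]
      exact Nat.mul_div_le i (2 * b)
    have he3 : i ≤ 4 * b * e := by
      have h1 : i < 2 * b * (e + 1) := by
        rw [he]
        exact Nat.lt_mul_div_succ i hb2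
      have h2 : 2 * b ≤ 2 * b * e := Nat.le_mul_of_pos_right _ he1
      have h3 : 2 * b * (e + 1) = 2 * b * e + 2 * b := by ring
      have h4 : 4 * b * e = 2 * b * e + 2 * b * e := by ring
      omega
    have hei : e ≤ i := le_trans (Nat.le_mul_of_pos_left e hb2) he2
    obtain ⟨z, hz⟩ : ∃ z, z = 2 ^ e := ⟨_, rfl⟩
    have hz2 : 2 ≤ z := by
      rw [hz]
      calc 2 = 2 ^ 1 := by norm_num
        _ ≤ 2 ^ e := Nat.pow_le_pow_right (by norm_num) he1
    have hzi : z ≤ 2 ^ i := by
      rw [hz]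
      exact Nat.pow_le_pow_right (by norm_num) hei
    have hzQ : z ^ b * d ≤ 2 ^ (i + 1) := by
      have h1 : (z ^ b * d) ^ 2 ≤ (2 ^ i) ^ 2 := by
        calc (z ^ b * d) ^ 2 = 2 ^ (2 * b * e) * d ^ 2 := by
              rw [mul_pow, hz, ← pow_mul, ← pow_mul]
              congr 2
              ring
          _ ≤ 2 ^ i * 2 ^ i := Nat.mul_le_mul (Nat.pow_le_pow_right (by norm_num) he2) hdi
          _ = (2 ^ i) ^ 2 := by ring
      have h2 := (Nat.pow_le_pow_iff_left (by norm_num)).1 h1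
      exact h2.trans (Nat.pow_le_pow_right (by norm_num) (Nat.le_succ i))
    have hlz : 0 < Real.log z := Real.log_pos (by exact_mod_cast hz2)
    have hlz2 : (i : ℝ) * Real.log 2 ≤ 4 * b * Real.log z := by
      have h1 : Real.log z = e * Real.log 2 := by
        rw [hz, Nat.cast_pow, Real.log_pow]
        norm_num
      have h2 : (i : ℝ) ≤ 4 * b * e := by exact_mod_cast he3
      rw [h1]
      nlinarith
    have hsum := btp_sum CM hCM z d hz2 hd
    have hexp : Real.exp (-∑ l ∈ (PP 6 z).filter (fun l => ¬ l ∣ d), 1 / (l : ℝ)) ≤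
        Real.exp (CM + 1) * (1 / Real.log z) * ((d : ℝ) / d.totient) := by
      calc Real.exp (-∑ l ∈ (PP 6 z).filter (fun l => ¬ l ∣ d), 1 / (l : ℝ)) ≤
          Real.exp ((CM + 1) + -LL 2 z + ∑ l ∈ d.primeFactors, 1 / (l : ℝ)) :=
            Real.exp_le_exp.2 (by linarith)
        _ = Real.exp (CM + 1) * Real.exp (-LL 2 z) *
            Real.exp (∑ l ∈ d.primeFactors, 1 / (l : ℝ)) := by
            rw [Real.exp_add, Real.exp_add]
        _ ≤ _ := by
            refine mul_le_mul (mul_le_mul_of_nonneg_left ?_ (Real.exp_pos _).le) (btp_tot d hd)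
              (Real.exp_pos _).le (by positivity)
            unfold LL
            rw [Real.exp_neg, Real.exp_log (by positivity)]
            have hlog2 : Real.log (2 : ℕ) ≤ 1 := by
              have := Real.log_two_lt_d9
              push_cast
              linarith
            rw [inv_div]
            exact div_le_div_of_nonneg_right hlog2 hlz.le
    have hcard := hCS z (2 ^ (i + 1)) d r ((PP 6 z).filter (fun l => ¬ l ∣ d))
      (fun _ => {0}) hz2 hd hzQ
      (by
        intro l hl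
        rw [mem_filter, btp_mem] at hl
        exact ⟨hl.1.2, by omega, hl.1.1.2, by simp, hl.2⟩)
      S
      (by
        intro p hp
        rw [hSdef, mem_filter, mem_Ioc] at hp
        refine ⟨hp.1.2, hp.2.2, ?_⟩
        intro l hl h0
        rw [mem_filter, btp_mem] at hl
        rw [mem_singleton, ZMod.natCast_eq_zero_iff] at h0
        have h3 := (Nat.prime_dvd_prime_iff_eq hl.1.2 hp.2.1).1 h0
        have h4 := hp.1.1
        have h5 := hl.1.1.2
        omega)
    have hsum1 : ∑ l ∈ (PP 6 z).filter (fun l => ¬ l ∣ d),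
        ((({0} : Finset (ZMod l)).card : ℝ) / l) =
        ∑ l ∈ (PP 6 z).filter (fun l => ¬ l ∣ d), 1 / (l : ℝ) :=
      sum_congr rfl fun l _ => by simp
    rw [hsum1] at hcard
    have h3 : (S.card : ℝ) ≤ CS * (((2 ^ (i + 1) : ℕ) : ℝ) / d) *
        (Real.exp (CM + 1) * (1 / Real.log z) * ((d : ℝ) / d.totient)) :=
      hcard.trans (mul_le_mul_of_nonneg_left hexp (by positivity))
    have h4 : 1 / Real.log z ≤ 4 * b / (i * Real.log 2) := by
      rw [div_le_div_iff₀ hlz (by positivity)]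
      linarith
    calc (S.card : ℝ) ≤ CS * (((2 ^ (i + 1) : ℕ) : ℝ) / d) *
          (Real.exp (CM + 1) * (1 / Real.log z) * ((d : ℝ) / d.totient)) := h3
      _ = 2 * E * 2 ^ i / d.totient * (1 / Real.log z) := by
          rw [hE]
          push_cast
          rw [pow_succ]
          field_simp
      _ ≤ 2 * E * 2 ^ i / d.totient * (4 * b / (i * Real.log 2)) :=
          mul_le_mul_of_nonneg_left h4 (by positivity)
      _ = (2 * E * (4 * b) / Real.log 2) * 2 ^ i / (d.totient * i) := by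
          field_simp
      _ ≤ _ := by
          refine div_le_div_of_nonneg_right (mul_le_mul_of_nonneg_right ?_ h2i.le) (by positivity)
          linarith

end Pool.Agent.Helper16.MD
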