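import Pool.Agent.Helper16.MD.Stmts
import Pool.Agent.Helper17.SO.Stmts

set_option autoImplicit false

open Finset

namespace Pool.Agent.Helper16.MD

open Pool.Agent.Helper17.SO (ST_MER PP LL)

theorem wnd_harm (I : ℕ) (hI : 1 ≤ I) (n : ℕ) (hn : I ≤ n) :
    ∑ i ∈ Ico I (n + 1), 1 / (i : ℝ) ≤ 1 + Real.log ((n : ℝ) / I) := by
  have hI0 : (0 : ℝ) < I := by exact_mod_cast hI
  have hI1 : (1 : ℝ) ≤ I := by exact_mod_cast hI
  induction n, hn using Nat.le_induction with
  | base =>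
    rw [Nat.Ico_succ_singleton, sum_singleton, div_self hI0.ne', Real.log_one, add_zero,
      div_le_one hI0]
    exact hI1
  | succ n hn ih =>
    rw [sum_Ico_succ_top (by omega)]
    have hn0 : (0 : ℝ) < n := by exact_mod_cast (by omega : 0 < n)
    have h1 : Real.log (((n + 1 : ℕ) : ℝ) / I) = Real.log ((n : ℝ) / I) +
        Real.log (((n + 1 : ℕ) : ℝ) / n) := by
      rw [← Real.log_mul (by positivity) (by positivity)]
      congr 1
      field_simp
    have h2 : 1 / ((n + 1 : ℕ) : ℝ) ≤ Real.log (((n + 1 : ℕ) : ℝ) / n) := by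
      have h3 := Real.one_sub_inv_le_log_of_pos (x := ((n + 1 : ℕ) : ℝ) / n) (by positivity)
      refine le_trans (le_of_eq ?_) h3
      push_cast
      field_simp
      ring
    rw [h1]
    linarith

theorem wnd_card (D I : ℕ) (hD : 1 ≤ D) (hDI : D ≤ 2 ^ (2 ^ I)) :
    D.primeFactors.card ≤ 2 ^ I := by
  have h1 : 2 ^ D.primeFactors.card ≤ ∏ p ∈ D.primeFactors, p := by
    rw [← prod_const]
    exact prod_le_prod' fun p hp => (Nat.prime_of_mem_primeFactors hp).two_le
  have h2 : ∏ p ∈ D.primeFactors, p ≤ D := Nat.le_of_dvd hD (Nat.prod_primeFactors_dvd D)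
  exact (Nat.pow_le_pow_iff_right (by norm_num)).1 ((h1.trans h2).trans hDI)

theorem wnd_log {p i : ℕ} : (2 ^ i < p ∧ p ≤ 2 ^ (i + 1)) ↔ 2 ≤ p ∧ Nat.log 2 (p - 1) = i := by
  constructor
  · rintro ⟨h1, h2⟩
    have h0 : 1 ≤ 2 ^ i := Nat.one_le_two_pow
    refine ⟨by omega, ?_⟩
    rw [Nat.log_eq_iff (Or.inr ⟨by norm_num, by omega⟩)]
    omega
  · rintro ⟨h1, h2⟩
    rw [Nat.log_eq_iff (Or.inr ⟨by norm_num, by omega⟩)] at h2
    omega

theorem st_WND (h : ST_MER) : ST_WND := by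
  obtain ⟨CM, hCM0, hCM⟩ := h
  intro A
  obtain ⟨K0, hK0⟩ := exists_nat_ge (Real.exp (4 / 3 * (A + CM + 5 / 4)))
  obtain ⟨K, hK⟩ : ∃ K, K = max K0 2 := ⟨_, rfl⟩
  have hK2 : 2 ≤ K := by rw [hK]; exact le_max_right _ _
  have hK00 : K0 ≤ K := by rw [hK]; exact le_max_left _ _
  have hKpos : (0 : ℝ) < K := by exact_mod_cast (by omega : 0 < K)
  have hlogK : 4 / 3 * (A + CM + 5 / 4) ≤ Real.log K := by
    rw [Real.le_log_iff_exp_le hKpos]
    exact hK0.trans (by exact_mod_cast hK00)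
  refine ⟨K, hK2, ?_⟩
  intro I D hI hD hDI
  have hI0 : (0 : ℝ) < I := by exact_mod_cast hI
  have hKI : I + 1 ≤ K * I := by nlinarith
  obtain ⟨u, hu⟩ : ∃ u, u = 2 ^ I := ⟨_, rfl⟩
  obtain ⟨w, hw⟩ : ∃ w, w = 2 ^ (K * I) := ⟨_, rfl⟩
  have hu2 : 2 ≤ u := by
    rw [hu]
    calc 2 = 2 ^ 1 := by norm_num
      _ ≤ 2 ^ I := Nat.pow_le_pow_right (by norm_num) hI
  have huw : u ≤ w := by
    rw [hu, hw]
    exact Nat.pow_le_pow_right (by norm_num) (by omega)
  have hl2 : 0 < Real.log 2 := Real.log_pos (by norm_num)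
  have hLL : LL u w = Real.log K := by
    unfold LL
    congr 1
    rw [hu, hw, Nat.cast_pow, Nat.cast_pow, Real.log_pow, Real.log_pow]
    push_cast
    field_simp
  have h1 := (abs_le.1 (hCM u w hu2 huw)).1
  rw [hLL] at h1
  -- split according to the divisors of `D`
  have h2 := sum_filter_add_sum_filter_not (PP u w) (fun l => l ∣ D) (fun l => 1 / (l : ℝ))
  have h3 : ∑ l ∈ (PP u w).filter (fun l => l ∣ D), 1 / (l : ℝ) ≤ 1 := by
    have hsub : (PP u w).filter (fun l => l ∣ D) ⊆ D.primeFactors := by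
      intro l hl
      rw [mem_filter] at hl
      unfold PP at hl
      rw [mem_filter] at hl
      exact Nat.mem_primeFactors.2 ⟨hl.1.2, hl.2, by omega⟩
    have hc : (((PP u w).filter (fun l => l ∣ D)).card : ℝ) ≤ u := by
      have h := (card_le_card hsub).trans (wnd_card D I hD hDI)
      rw [← hu] at h
      exact_mod_cast h
    have hu0 : (0 : ℝ) < u := by exact_mod_cast (by omega : 0 < u)
    calc ∑ l ∈ (PP u w).filter (fun l => l ∣ D), 1 / (l : ℝ) ≤
        (((PP u w).filter (fun l => l ∣ D)).card : ℝ) * (1 / u) := by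
          rw [← nsmul_eq_mul]
          refine sum_le_card_nsmul _ _ _ fun p hp => ?_
          have hp1 := (mem_filter.1 hp).1
          unfold PP at hp1
          rw [mem_filter, mem_Ioc] at hp1
          exact one_div_le_one_div_of_le hu0 (by exact_mod_cast hp1.1.1.le)
      _ ≤ u * (1 / u) := mul_le_mul_of_nonneg_right hc (by positivity)
      _ = 1 := by field_simp
  -- the blocks
  have h4 : ∑ i ∈ Ico I (K * I), ∑ p ∈ PB D i, 1 / (p : ℝ) =
      ∑ l ∈ (PP u w).filter (fun l => ¬ l ∣ D), 1 / (l : ℝ) := by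
    rw [← sum_fiberwise_of_maps_to (s := (PP u w).filter (fun l => ¬ l ∣ D))
      (t := Ico I (K * I)) (g := fun p => Nat.log 2 (p - 1))]
    · refine sum_congr rfl fun i hi => sum_congr ?_ fun _ _ => rfl
      rw [mem_Ico] at hi
      ext p
      unfold PB PP
      rw [mem_filter, mem_filter, mem_filter, mem_filter, mem_Ioc, mem_Ioc, wnd_log]
      constructor
      · rintro ⟨⟨hp2, hpi⟩, hpp, hpD⟩
        refine ⟨⟨⟨?_, hpp⟩, hpD⟩, hpi⟩
        have h5 := (wnd_log (p := p) (i := i)).2 ⟨hp2, hpi⟩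
        have h6 : 2 ^ I ≤ 2 ^ i := Nat.pow_le_pow_right (by norm_num) hi.1
        have h7 : 2 ^ (i + 1) ≤ 2 ^ (K * I) := Nat.pow_le_pow_right (by norm_num) (by omega)
        rw [hu, hw]
        omega
      · rintro ⟨⟨⟨_, hpp⟩, hpD⟩, hpi⟩
        exact ⟨⟨hpp.two_le, hpi⟩, hpp, hpD⟩
    · intro p hp
      rw [mem_filter] at hp
      unfold PP at hp
      rw [mem_filter, mem_Ioc] at hp
      have h5 := (wnd_log (p := p) (i := Nat.log 2 (p - 1))).2 ⟨hp.1.2.two_le, rfl⟩
      rw [mem_Ico]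
      obtain ⟨i, hi⟩ : ∃ i, i = Nat.log 2 (p - 1) := ⟨_, rfl⟩
      rw [← hi] at h5 ⊢
      constructor
      · have h6 : 2 ^ I < 2 ^ (i + 1) := by rw [← hu]; omega
        have h7 := (Nat.pow_lt_pow_iff_right (by norm_num)).1 h6
        omega
      · have h6 : 2 ^ i < 2 ^ (K * I) := by rw [← hw]; omega
        exact (Nat.pow_lt_pow_iff_right (by norm_num)).1 h6
  -- the poor blocks
  have h5 := sum_filter_add_sum_filter_not (Ico I (K * I))
    (fun i => 2 ^ i ≤ 4 * i * (PB D i).card) (fun i => ∑ p ∈ PB D i, 1 / (p : ℝ))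
  have h6 : ∑ i ∈ (Ico I (K * I)).filter (fun i => ¬ 2 ^ i ≤ 4 * i * (PB D i).card),
      ∑ p ∈ PB D i, 1 / (p : ℝ) ≤ (1 + Real.log K) / 4 := by
    calc ∑ i ∈ (Ico I (K * I)).filter (fun i => ¬ 2 ^ i ≤ 4 * i * (PB D i).card),
        ∑ p ∈ PB D i, 1 / (p : ℝ) ≤
        ∑ i ∈ (Ico I (K * I)).filter (fun i => ¬ 2 ^ i ≤ 4 * i * (PB D i).card),
          1 / 4 * (1 / (i : ℝ)) := by
          refine sum_le_sum fun i hi => ?_
          rw [mem_filter, mem_Ico] at hi
          have hi0 : (0 : ℝ) < i := by exact_mod_cast (by omega : 0 < i)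
          have h7 : (4 : ℝ) * i * (PB D i).card ≤ 2 ^ i := by
            exact_mod_cast (not_le.1 hi.2).le
          calc ∑ p ∈ PB D i, 1 / (p : ℝ) ≤ ((PB D i).card : ℝ) * (1 / 2 ^ i) := by
                rw [← nsmul_eq_mul]
                refine sum_le_card_nsmul _ _ _ fun p hp => ?_
                unfold PB at hp
                rw [mem_filter, mem_Ioc] at hp
                exact one_div_le_one_div_of_le (by positivity) (by exact_mod_cast hp.1.1.le)
            _ ≤ 1 / 4 * (1 / (i : ℝ)) := by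
                rw [mul_one_div, div_le_iff₀ (by positivity)]
                have h8 : 1 / 4 * (1 / (i : ℝ)) * 2 ^ i = 2 ^ i / (4 * i) := by field_simp
                rw [h8, le_div_iff₀ (by positivity)]
                linarith
      _ ≤ ∑ i ∈ Ico I (K * I), 1 / 4 * (1 / (i : ℝ)) :=
          sum_le_sum_of_subset_of_nonneg (filter_subset _ _) fun i _ _ => by positivity
      _ = 1 / 4 * ∑ i ∈ Ico I (K * I), 1 / (i : ℝ) := by rw [mul_sum]
      _ ≤ 1 / 4 * (1 + Real.log K) := by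
          refine mul_le_mul_of_nonneg_left ?_ (by norm_num)
          obtain ⟨n, hn⟩ : ∃ n, n = K * I - 1 := ⟨_, rfl⟩
          have hn1 : K * I = n + 1 := by omega
          have h7 := wnd_harm I hI n (by omega)
          rw [hn1]
          refine h7.trans ?_
          have hn0 : (0 : ℝ) < n := by exact_mod_cast (by omega : 0 < n)
          have h8 : Real.log ((n : ℝ) / I) ≤ Real.log K := by
            refine Real.log_le_log (by positivity) ?_
            rw [div_le_iff₀ hI0]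
            exact_mod_cast (by omega : n ≤ K * I)
          linarith
      _ = (1 + Real.log K) / 4 := by ring
  have h7 : Am D (RW D I K) = ∑ i ∈ (Ico I (K * I)).filter
      (fun i => 2 ^ i ≤ 4 * i * (PB D i).card), ∑ p ∈ PB D i, 1 / (p : ℝ) := rfl
  rw [h7]
  linarith

end Pool.Agent.Helper16.MD
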